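import Pool.Agent.N408.IB.Stm

/-! Project IB (helper408), leaf SDF: second differences of the profile `hfin`, by helper289. -/

open Real Set MeasureTheory IB408

namespace N289.IB.SDF

/-- the cosine is 1-Lipschitz -/
lemma cos_lip (x y : ℝ) : |cos x - cos y| ≤ |x - y| := by
  rw [Real.cos_sub_cos, abs_mul, abs_mul, abs_neg, abs_two]
  have h1 := Real.abs_sin_le_one ((x + y) / 2)
  have h2 : |sin ((x - y) / 2)| ≤ |(x - y) / 2| := Real.abs_sin_le_abs
  have h3 : |(x - y) / 2| = |x - y| / 2 := by rw [abs_div, abs_two]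
  rw [h3] at h2
  calc 2 * |sin ((x + y) / 2)| * |sin ((x - y) / 2)| ≤ 2 * 1 * (|x - y| / 2) := by
        apply mul_le_mul (by linarith) h2 (abs_nonneg _) (by norm_num)
    _ = |x - y| := by ring

/-- the function `ψ ↦ st (arcsin (cos ψ))` has the period `π` -/
lemma F_per {s : ℝ → ℝ} (he : ∀ γ, s (-γ) = s γ) : Function.Periodic (fun φ => s (arcsin (cos φ))) π := by
  intro φ
  simp only [Real.cos_add_pi, Real.arcsin_neg]
  exact he _

lemma F_zero {s : ℝ → ℝ} (hz : ∀ γ, al ≤ |γ| → s γ = 0) {φ : ℝ} (h : b ≤ |cos φ|) :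
    s (arcsin (cos φ)) = 0 := by
  apply hz
  rcases le_abs.1 h with h1 | h1
  · refine le_trans ?_ (le_abs_self _)
    exact Real.monotone_arcsin h1
  · refine le_trans ?_ (neg_le_abs _)
    rw [← Real.arcsin_neg]
    exact Real.monotone_arcsin h1

lemma F_mid (s : ℝ → ℝ) {φ : ℝ} (h0 : 0 ≤ φ) (h1 : φ ≤ π) : s (arcsin (cos φ)) = s (π / 2 - φ) := by
  rw [← Real.sin_pi_div_two_sub, Real.arcsin_sin (by linarith) (by linarith)]

/-- second differences of `st (arcsin (cos ψ))` -/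
lemma F_diff {s : ℝ → ℝ} (he : ∀ γ, s (-γ) = s γ) (hz : ∀ γ, al ≤ |γ| → s γ = 0)
    (hst : ∀ γ δ, |s (γ + δ) + s (γ - δ) - 2 * s γ| ≤ b * δ ^ 2) (ψ δ : ℝ) (hδ : |δ| ≤ 1 / 10) :
    |s (arcsin (cos (ψ + δ))) + s (arcsin (cos (ψ - δ))) - 2 * s (arcsin (cos ψ))| ≤ b * δ ^ 2 := by
  have hb0 : 0 < b := by unfold b; norm_num
  by_cases hc : 1 / 2 < |cos ψ|
  · have h1 : b ≤ |cos (ψ + δ)| := by
      have h2 := cos_lip ψ (ψ + δ)
      have h3 : |ψ - (ψ + δ)| = |δ| := by rw [sub_add_cancel_left, abs_neg]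
      rw [h3] at h2
      have h4 := abs_sub_abs_le_abs_sub (cos ψ) (cos (ψ + δ))
      unfold b
      linarith
    have h5 : b ≤ |cos (ψ - δ)| := by
      have h2 := cos_lip ψ (ψ - δ)
      have h3 : |ψ - (ψ - δ)| = |δ| := by rw [sub_sub_cancel]
      rw [h3] at h2
      have h4 := abs_sub_abs_le_abs_sub (cos ψ) (cos (ψ - δ))
      unfold b
      linarith
    have h6 : b ≤ |cos ψ| := by
      unfold b
      linarith
    rw [F_zero hz h1, F_zero hz h5, F_zero hz h6]
    have : 0 ≤ b * δ ^ 2 := by positivity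
    simpa using this
  · rw [not_lt] at hc
    -- reduction to `[0, π)`
    have hper := F_per he
    obtain ⟨k, hk⟩ : ∃ k : ℤ, k = ⌊ψ / π⌋ := ⟨_, rfl⟩
    obtain ⟨x, hx⟩ : ∃ x : ℝ, x = ψ - k * π := ⟨_, rfl⟩
    have hx0 : 0 ≤ x := by
      have h1 : (k : ℝ) ≤ ψ / π := by rw [hk]; exact Int.floor_le _
      rw [le_div_iff₀ Real.pi_pos] at h1
      rw [hx]
      linarith
    have hx1 : x < π := by
      have h1 : ψ / π < (k : ℝ) + 1 := by rw [hk]; exact Int.lt_floor_add_one _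
      rw [div_lt_iff₀ Real.pi_pos] at h1
      rw [hx]
      linarith
    have e : ∀ d : ℝ, s (arcsin (cos (ψ + d))) = s (arcsin (cos (x + d))) := by
      intro d
      have h1 : s (arcsin (cos (x + d + k * π))) = s (arcsin (cos (x + d))) := hper.int_mul k (x + d)
      rw [← h1]
      congr 3
      rw [hx]
      ring
    have hcx : |cos x| ≤ 1 / 2 := by
      have h1 : |cos ψ| = |cos x| := by
        have h2 : ψ = x + k * π := by rw [hx]; ring
        rw [h2, Real.cos_add_int_mul_pi, abs_mul]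
        have h3 : |((-1 : ℝ)) ^ k| = 1 := by
          rw [abs_zpow, abs_neg, abs_one, one_zpow]
        rw [h3, one_mul]
      rw [← h1]
      exact hc
    have hx2 : 1 / 10 ≤ x := by
      by_contra hcon
      rw [not_le] at hcon
      have h1 := Real.one_sub_sq_div_two_le_cos (x := x)
      have h2 := le_abs_self (cos x)
      nlinarith
    have hx3 : x ≤ π - 1 / 10 := by
      by_contra hcon
      rw [not_le] at hcon
      have h1 := Real.one_sub_sq_div_two_le_cos (x := π - x)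
      rw [Real.cos_pi_sub] at h1
      have h2 := neg_le_abs (cos x)
      have h3 : 0 < π - x := by linarith
      nlinarith
    have hd := abs_le.1 hδ
    have e0 := e 0
    rw [add_zero, add_zero] at e0
    have e1 := e δ
    have e2 := e (-δ)
    rw [← sub_eq_add_neg, ← sub_eq_add_neg] at e2
    rw [e0, e1, e2, F_mid s (by linarith) (by linarith), F_mid s (by linarith) (by linarith),
      F_mid s (by linarith) (by linarith)]
    have h1 := hst (π / 2 - x) δ
    have a1 : π / 2 - (x + δ) = π / 2 - x - δ := by ring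
    have a2 : π / 2 - (x - δ) = π / 2 - x + δ := by ring
    rw [a1, a2, add_comm (s (π / 2 - x - δ))]
    exact h1

theorem t (h2 : S_ODD1) (h3 : S_ODD2) (h4 : S_BAS1) : IB408.S_SDF := by
  intro q w hS hst hq ψ δ hδ
  obtain ⟨hA, hw0, hw1, -, -⟩ := hS
  obtain ⟨-, -, -, -, -, -, hst_e, hst_z, -, -, -⟩ := h4 q hA
  obtain ⟨-, -, -, -, -, -, -, hoc, -⟩ := h2
  obtain ⟨-, -, -, -, -, hob, -, -⟩ := h3 w hw0 hw1
  have a1 := hq ψ δ hδ
  have a2 := abs_le.1 (F_diff hst_e hst_z hst ψ δ hδ)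
  have a3 := abs_le.1 (hoc ψ δ)
  have a4 := abs_le.1 (hoc (π - ψ) δ)
  have a5 := abs_le.1 (hob (π / 2 - ψ) δ)
  have e1 : π - (ψ + δ) = π - ψ - δ := by ring
  have e2 : π - (ψ - δ) = π - ψ + δ := by ring
  have e3 : π / 2 - (ψ + δ) = π / 2 - ψ - δ := by ring
  have e4 : π / 2 - (ψ - δ) = π / 2 - ψ + δ := by ring
  have hb1 : b * δ ^ 2 ≤ (1 / 100) * δ ^ 2 := by
    apply mul_le_mul_of_nonneg_right _ (by positivity)
    unfold b
    norm_num
  have hd0 : 0 ≤ δ ^ 2 := by positivity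
  unfold hfin
  rw [e1, e2, e3, e4]
  linarith [a1, a2.1, a3.1, a4.2, a5.1]

end N289.IB.SDF
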